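import Pool.Agent.BAT82.Core

/-! Balanced antidirected trees with small maximum degree need not occur in oriented graphs with
minimum semidegree larger than `k / 2`. -/

set_option autoImplicit false

namespace Pool.Agent.Results.MP_22f26a_co.LargeTrees

open Filter
open Pool.Agent.BAT82

/-- There are an oriented graph `D` on `n` vertices with minimum semidegree larger than `k / 2` and
a balanced antidirected tree `T` with `k` edges (on the vertices `Fin (k + 1)`, arcs `T a b`) and
maximum total degree at most `Δ` which `D` does not contain. -/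
def Fails (n k Δ : ℕ) : Prop :=
  ∃ D : Digraph (Fin n), (∀ v, ¬ D.Adj v v) ∧ (∀ u v, D.Adj u v → ¬ D.Adj v u) ∧
    (∀ v, k < 2 * {w : Fin n | D.Adj v w}.ncard ∧ k < 2 * {w : Fin n | D.Adj w v}.ncard) ∧
    ∃ T : Fin (k + 1) → Fin (k + 1) → Prop, (SimpleGraph.fromRel T).IsTree ∧
      (∀ v, ¬ ((∃ a, T a v) ∧ (∃ b, T v b))) ∧
      {v : Fin (k + 1) | ∃ b, T v b}.ncard = {v : Fin (k + 1) | ∃ a, T a v}.ncard ∧
      (∀ v, {w : Fin (k + 1) | T v w ∨ T w v}.ncard ≤ Δ) ∧
      ¬ ∃ f : Fin (k + 1) → Fin n, Function.Injective f ∧ ∀ a b, T a b → D.Adj (f a) (f b)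

theorem fails_of_ex {c n : ℕ} (h : Ex (c + 1) n) : Fails n (2 * c + 1) (c + 1) := by
  obtain ⟨R, hR⟩ := h
  refine ⟨⟨R⟩, hR.irrefl, hR.asymm, fun v => ?_, DS c, DS_tree c, DS_anti c, DS_bal c, DS_deg c, ?_⟩
  · have h1 := hR.out v
    have h2 := hR.inn v
    constructor
    · show 2 * c + 1 < 2 * {w : Fin n | R v w}.ncard
      omega
    · show 2 * c + 1 < 2 * {w : Fin n | R w v}.ncard
      omega
  · rintro ⟨f, hf, hT⟩
    exact no_embed hR f hf hT

/-- **Main result.** (1) For every odd `k ≥ 5` the assertion of Q1 fails for trees with `k` edges and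
maximum total degree `(k + 1) / 2`, in oriented graphs on `n` vertices for all `n` divisible by
`k + 2`, and, if `k ≥ 7`, for all `n ≥ (k + 1) (k + 3)`. (2) For every `g` with `g n → ∞` there is
`κ` with `κ n → ∞` such that for all large `n` it fails for trees with `κ n` edges and maximum
total degree at most `g n`. -/
theorem result :
    (∀ k : ℕ, Odd k → 5 ≤ k → ∀ n : ℕ, (k + 2 ∣ n ∨ (7 ≤ k ∧ (k + 1) * (k + 3) ≤ n)) →
      Fails n k ((k + 1) / 2)) ∧
    ∀ g : ℕ → ℕ, Tendsto g atTop atTop → ∃ κ : ℕ → ℕ, Tendsto κ atTop atTop ∧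
      ∀ᶠ n in atTop, Fails n (κ n) (g n) := by
  constructor
  · rintro k ⟨c, rfl⟩ hk n hn
    have e : (2 * c + 1 + 1) / 2 = c + 1 := by omega
    rw [e]
    rcases hn with ⟨N, rfl⟩ | ⟨h7, hn⟩
    · have := ex_dvd (c := c) (N := N) (by omega)
      rw [mul_comm]
      exact fails_of_ex this
    · exact fails_of_ex (ex_all (by omega) hn)
  · intro g hg
    have hs : Tendsto (fun n : ℕ => Nat.sqrt n / 4) atTop atTop := by
      rw [tendsto_atTop_atTop]
      intro b
      refine ⟨(4 * b) ^ 2, fun n hn => ?_⟩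
      have h1 : 4 * b ≤ Nat.sqrt n := Nat.le_sqrt'.2 hn
      omega
    have hg' : Tendsto (fun n => g n - 1) atTop atTop := by
      rw [tendsto_atTop_atTop] at hg ⊢
      intro b
      obtain ⟨i, hi⟩ := hg (b + 1)
      exact ⟨i, fun n hn => by have := hi n hn; omega⟩
    have hc : Tendsto (fun n : ℕ => min (g n - 1) (Nat.sqrt n / 4)) atTop atTop := by
      rw [tendsto_atTop_atTop] at hs hg' ⊢
      intro b
      obtain ⟨i, hi⟩ := hs b
      obtain ⟨j, hj⟩ := hg' b
      exact ⟨max i j, fun n hn => le_min (hj n ((le_max_right _ _).trans hn))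
        (hi n ((le_max_left _ _).trans hn))⟩
    refine ⟨fun n => 2 * min (g n - 1) (Nat.sqrt n / 4) + 1, ?_, ?_⟩
    · refine tendsto_atTop_mono (fun n => ?_) hc
      omega
    · filter_upwards [hc.eventually_ge_atTop 3, hg.eventually_ge_atTop 1] with n h1 h2
      set c := min (g n - 1) (Nat.sqrt n / 4) with hcd
      have h3 : c ≤ g n - 1 := min_le_left _ _
      have h4 : c ≤ Nat.sqrt n / 4 := min_le_right _ _
      have h5 : (2 * c + 2) * (2 * c + 4) ≤ n := by
        have h6 : 2 * c + 4 ≤ Nat.sqrt n := by omega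
        calc (2 * c + 2) * (2 * c + 4) ≤ Nat.sqrt n * Nat.sqrt n :=
              Nat.mul_le_mul (by omega) h6
          _ ≤ n := Nat.sqrt_le n
      obtain ⟨D, d1, d2, d3, T, t1, t2, t3, t4, t5⟩ := fails_of_ex (ex_all h1 h5)
      exact ⟨D, d1, d2, d3, T, t1, t2, t3, fun v => (t4 v).trans (by omega), t5⟩

end Pool.Agent.Results.MP_22f26a_co.LargeTrees
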